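import Pool.Agent.Run7.h726.HL.J

/-!
# Halving lines: the near-linear conjecture is equivalent to its average case

Definitions (in `Pool/Agent/Run7/h726/HL/C.lean` and `G.lean`, namespace `Run7.h726.HL`):

* `Line a b c = {p | a * p.1 + b * p.2 = c}`,
* `IsBisector P L` for a family `P : Fin n → ℝ × ℝ`: `L` is a line through two distinct points of
  the family with exactly `n / 2 - 1` of the points `P 0, …, P (n - 1)` (counted with their
  indices) in each of the two open half-planes bounded by `L`,
* `NoLine μ`: the law `μ` gives mass zero to every line,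
* `expBis μ n`: the expected number of bisectors of `n` independent points with law `μ`.

`KLev.Halving.f m` (`Pool/Agent/KLev/Halving.lean`) is the maximum number of halving lines of `m`
points in general position.
-/

set_option autoImplicit false

open Finset MeasureTheory Filter
open scoped ENNReal

namespace Pool.Agent.Results.MP_d308c3_co.AverageCase

open Run7.h726.HL

/-- 1. `Q1` (the maximum number of halving lines is `o(n ^ (1 + ε))` for every `ε > 0`) holds if
and only if for every `ε > 0` there is a constant `C` such that for every law charging no line and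
every even `n` the expected number of halving lines of `n` independent random points is at most
`C n ^ (1 + ε)`.
2. More precisely, a bound `C n ^ β` for the expected numbers gives at most `30 C m ^ (2 β - 1)`
halving lines for all `m` points in general position.
3. The bound for the expected numbers holds with `ε = 1 / 6`, for all laws. -/
theorem result :
    ((∀ ε : ℝ, 0 < ε → ∀ δ : ℝ, 0 < δ → ∃ N : ℕ, ∀ S : Finset (ℝ × ℝ),
      N ≤ S.card →
      (∀ p ∈ S, ∀ q ∈ S, ∀ r ∈ S, p ≠ q → p ≠ r → q ≠ r →
        (q.1 - p.1) * (r.2 - p.2) - (q.2 - p.2) * (r.1 - p.1) ≠ 0) →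
      (((S ×ˢ S).filter (fun x => x.1 ≠ x.2 ∧
          (S.filter (fun r => 0 < (x.2.1 - x.1.1) * (r.2 - x.1.2)
              - (x.2.2 - x.1.2) * (r.1 - x.1.1))).card * 2 + 2 = S.card)).card : ℝ)
        ≤ δ * (S.card : ℝ) ^ (1 + ε)) ↔
    (∀ ε : ℝ, 0 < ε → ∃ C : ℝ, ∀ μ : Measure (ℝ × ℝ), IsProbabilityMeasure μ → NoLine μ →
      ∀ n : ℕ, Even n → expBis μ n ≤ ENNReal.ofReal (C * (n : ℝ) ^ (1 + ε)))) ∧
    (∀ β C : ℝ, 0 ≤ C →
      (∀ μ : Measure (ℝ × ℝ), IsProbabilityMeasure μ → NoLine μ → ∀ n : ℕ, Even n →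
        expBis μ n ≤ ENNReal.ofReal (C * (n : ℝ) ^ β)) →
      ∀ m : ℕ, Even m → 0 < m → (KLev.Halving.f m : ℝ) ≤ 30 * C * (m : ℝ) ^ (2 * β - 1)) ∧
    (∃ C : ℝ, 0 < C ∧ ∀ (μ : Measure (ℝ × ℝ)) [IsProbabilityMeasure μ] (n : ℕ), Even n →
      expBis μ n ≤ ENNReal.ofReal (C * (n : ℝ) ^ (1 + 1 / 6 : ℝ))) := by
  refine ⟨⟨average_of_nearLinear, nearLinear_of_average⟩,
    fun β C hC h m hm hm0 => transfer hC h hm hm0, CC, CC_pos, fun μ _ n hn => ?_⟩
  have h := main μ hn
  rw [show (1 + 1 / 6 : ℝ) = 7 / 6 by norm_num]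
  exact h

end Pool.Agent.Results.MP_d308c3_co.AverageCase
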