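import Pool.Agent.Run7.h721.KL3.Final3
import Pool.Agent.KLev.KGraph

/-!
# Halving lines: `e_n ≥ n ^ (1 + C / (log log n) ^ 3)` for every `C`

`GeneralPosition`, `right`, `edges` and `eMax` are defined in `Pool/Agent/KLev/KGraph.lean`
(namespace `KLev.KGraph`).
-/

namespace Pool.Agent.Results.MP_d308c3_co.CubicLogLog

open Filter KLev

/-- For every constant `C`, all large `n` satisfy `e_n ≥ n ^ (1 + C / (log log n) ^ 3)`, where
`e_n = e_{2n,n-1} / 2`. -/
theorem result : ∀ C : ℝ, ∀ᶠ n : ℕ in atTop,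
    (n : ℝ) ^ (1 + C / (Real.log (Real.log n)) ^ 3) ≤
      (KGraph.eMax (2 * n) (n - 1) : ℝ) / 2 := by
  intro C
  obtain ⟨a, ha⟩ := (Pool.Agent.Run7.h721.KL3.finalP 1 C).exists_forall_of_atTop
  filter_upwards [eventually_ge_atTop (a + 1)] with n hn
  obtain ⟨N, E, P, hH, hN, hE⟩ := ha n (by omega)
  have h1 := KGraph.eMax_ge hH n hN (by omega)
  have h2 : ((2 * E : ℕ) : ℝ) ≤ KGraph.eMax (2 * n) (n - 1) := by exact_mod_cast h1
  push_cast at h2
  have hn0 : (0:ℝ) ≤ n := Nat.cast_nonneg _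
  have h3 := hE n le_rfl (by linarith)
  rw [one_mul] at h3
  rw [le_div_iff₀ (by norm_num)]
  linarith

end Pool.Agent.Results.MP_d308c3_co.CubicLogLog
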